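import Mathlib

namespace Pool.Agent.Results.MP_d721eb_al.Unstable
open Matrix

/-- The largest modulus of a complex eigenvalue. -/
noncomputable def rho {n : ℕ} (M : Matrix (Fin n) (Fin n) ℝ) : ℝ :=
  sSup ((fun z : ℂ => ‖z‖) '' spectrum ℂ (M.map Complex.ofReal))

lemma spec (M : Matrix (Fin 2) (Fin 2) ℝ) (a b : ℝ) (h1 : M 0 0 + M 1 1 = a + b)
    (h2 : M 0 0 * M 1 1 - M 0 1 * M 1 0 = a * b) (ha : 0 ≤ a) (hab : a ≤ b) : rho M = b := by
  have : spectrum ℂ (M.map Complex.ofReal) = {(a : ℂ), (b : ℂ)} := by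
    ext z
    have e1 := congrArg Complex.ofReal h1
    have e2 := congrArg Complex.ofReal h2
    push_cast at e1 e2
    rw [mem_spectrum_iff_isRoot_charpoly, charpoly_fin_two]
    simp only [trace_fin_two, det_fin_two, map_apply, e1, e2, Polynomial.IsRoot.def,
      Polynomial.eval_add, Polynomial.eval_sub, Polynomial.eval_pow, Polynomial.eval_X,
      Polynomial.eval_mul, Polynomial.eval_C, Set.mem_insert_iff, Set.mem_singleton_iff]
    rw [← sub_eq_zero (a := z), ← sub_eq_zero (a := z), ← mul_eq_zero]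
    constructor <;> intro h <;> linear_combination h
  rw [rho, this, Set.image_pair, csSup_pair]
  simp [abs_of_nonneg ha, abs_of_nonneg (ha.trans hab), hab]

theorem result : ∃ (n : ℕ) (W B : Matrix (Fin n) (Fin n) ℝ) (π : Fin n → ℝ) (t : ℝ),
    (∀ i j, 0 ≤ W i j) ∧ W *ᵥ 1 = 1 ∧ (∃ m, 1 ≤ m ∧ ∀ i j, 0 < (W ^ m) i j) ∧
    (∀ i, 0 < π i) ∧ π ᵥ* W = π ∧ π ⬝ᵥ 1 = 1 ∧ B.PosSemidef ∧ B *ᵥ 1 ≤ rho B • 1 ∧
    0 < π ⬝ᵥ B *ᵥ 1 ∧ 0 < t ∧ t < 2 / rho B ∧ 1 < rho (W * (1 - t • B)) := by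
  have h : rho !![5, -6; -6, 10] = 14 := spec _ 1 14 (by norm_num) (by norm_num) (by norm_num)
    (by norm_num)
  refine ⟨2, !![5 / 7, 2 / 7; 1, 0], !![5, -6; -6, 10], ![7 / 9, 2 / 9], 1 / 14, ?_, ?_,
    ⟨2, by norm_num, ?_⟩, ?_, ?_, ?_, ?_, ?_, ?_, by norm_num, by rw [h]; norm_num, ?_⟩
  · intro i j; fin_cases i <;> fin_cases j <;> norm_num
  · ext i; fin_cases i <;> simp [mulVec, dotProduct] <;> norm_num
  · intro i j; fin_cases i <;> fin_cases j <;> norm_num [pow_two]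
  · intro i; fin_cases i <;> norm_num
  · ext i; fin_cases i <;> simp [vecMul, dotProduct] <;> norm_num
  · simp [dotProduct]; norm_num
  · refine PosSemidef.of_dotProduct_mulVec_nonneg ?_ fun x => ?_
    · ext i j; fin_cases i <;> fin_cases j <;> simp
    · simp [mulVec, dotProduct]
      nlinarith [sq_nonneg (3 * x 0 - 4 * x 1), sq_nonneg (x 0), sq_nonneg (x 1), sq_nonneg (x 0 - x 1)]
  · rw [h]; intro i; fin_cases i <;> simp [mulVec, dotProduct] <;> norm_num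
  · simp [mulVec, dotProduct]; norm_num
  · rw [spec _ 0 (99 / 98)] <;> norm_num [mul_apply, Fin.sum_univ_two, one_apply]

end Pool.Agent.Results.MP_d721eb_al.Unstable
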